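import Pool.Agent.H822N.Main
set_option autoImplicit false
namespace Pool.Agent.Results.MP_ca9574_an.NaturalBoundaryOnAllDiscs
open Metric Set Topology

/-- `f` belongs to the ball algebra `A(B)` of the unit ball of `ℂⁿ`: it is continuous on the closed unit ball
and holomorphic in the open unit ball (values off the closed ball play no role). -/
def InBallAlgebra (n : ℕ) (f : EuclideanSpace ℂ (Fin n) → ℂ) : Prop :=
  ContinuousOn f (closedBall (0 : EuclideanSpace ℂ (Fin n)) 1) ∧
    DifferentiableOn ℂ f (ball (0 : EuclideanSpace ℂ (Fin n)) 1)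

/-- The first order complex partial derivative `∂f/∂z_i`. -/
noncomputable def partialDeriv {n : ℕ} (i : Fin n) (f : EuclideanSpace ℂ (Fin n) → ℂ)
    (z : EuclideanSpace ℂ (Fin n)) : ℂ :=
  fderiv ℂ f z (EuclideanSpace.single i 1)

/-- The iterated partial derivatives of all orders; the list gives the variables. -/
noncomputable def iterPartialDeriv {n : ℕ} : List (Fin n) → (EuclideanSpace ℂ (Fin n) → ℂ) →
    EuclideanSpace ℂ (Fin n) → ℂ
  | [], f => f
  | i :: l, f => partialDeriv i (iterPartialDeriv l f)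

/-- `f` belongs to `A^∞(B)`: it is holomorphic in the open unit ball and all its partial derivatives of every
order (order zero included) extend continuously from the open ball to the closed ball. -/
def InAInfty (n : ℕ) (f : EuclideanSpace ℂ (Fin n) → ℂ) : Prop :=
  DifferentiableOn ℂ f (ball (0 : EuclideanSpace ℂ (Fin n)) 1) ∧
    ∀ l : List (Fin n), ∃ G : EuclideanSpace ℂ (Fin n) → ℂ,
      ContinuousOn G (closedBall (0 : EuclideanSpace ℂ (Fin n)) 1) ∧
        ∀ z ∈ ball (0 : EuclideanSpace ℂ (Fin n)) 1, G z = iterPartialDeriv l f z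

/-- `g` (holomorphic in the open unit disc of `ℂ`) has the unit circle as its natural boundary: for no point `τ`
of the circle are there an open disc `D` containing `τ` and a holomorphic `h` on `D` that agrees with `g` on the
intersection of `D` with the open unit disc. -/
def HasNaturalBoundary (g : ℂ → ℂ) : Prop :=
  ∀ τ : ℂ, ‖τ‖ = 1 → ¬ ∃ (c : ℂ) (r : ℝ) (h : ℂ → ℂ), τ ∈ ball c r ∧ DifferentiableOn ℂ h (ball c r) ∧
    ∀ w ∈ ball c r ∩ ball (0 : ℂ) 1, h w = g w

/-- Property (NB): for all `a` and all `b ≠ 0` in `ℂⁿ` such that the affine map `Φ(w) = a + w b` sends the unit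
circle into the unit sphere, `f ∘ Φ` has the unit circle as its natural boundary. -/
def PropertyNB (n : ℕ) (f : EuclideanSpace ℂ (Fin n) → ℂ) : Prop :=
  ∀ a b : EuclideanSpace ℂ (Fin n), b ≠ 0 → (∀ w : ℂ, ‖w‖ = 1 → ‖a + w • b‖ = 1) →
    HasNaturalBoundary (fun w => f (a + w • b))

/-- `f` cannot be continued out of the ball along any holomorphic curve: if `W` is a connected open subset of `ℂ`,
`Φ : W → ℂⁿ` and `h : W → ℂ` are holomorphic, and on some nonempty open subset `V` of `W` the curve `Φ` runs in the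
open unit ball and `h = f ∘ Φ`, then the whole of `Φ(W)` lies in the open unit ball (and `h = f ∘ Φ` on `W`). -/
def NonContinuableAlongCurves (n : ℕ) (f : EuclideanSpace ℂ (Fin n) → ℂ) : Prop :=
  ∀ (W V : Set ℂ) (Φ : ℂ → EuclideanSpace ℂ (Fin n)) (h : ℂ → ℂ), IsOpen W → IsPreconnected W →
    DifferentiableOn ℂ Φ W → DifferentiableOn ℂ h W → V ⊆ W → IsOpen V → V.Nonempty →
    (∀ w ∈ V, Φ w ∈ ball (0 : EuclideanSpace ℂ (Fin n)) 1 ∧ h w = f (Φ w)) →
    ∀ w ∈ W, Φ w ∈ ball (0 : EuclideanSpace ℂ (Fin n)) 1 ∧ h w = f (Φ w)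

theorem partialDeriv_eq {n : ℕ} : (partialDeriv (n := n)) = Pool.Agent.H822N.partialDeriv := rfl

theorem iterPartialDeriv_eq {n : ℕ} (l : List (Fin n)) (f : EuclideanSpace ℂ (Fin n) → ℂ) :
    iterPartialDeriv l f = Pool.Agent.H822N.iterPartialDeriv l f := by
  induction l with
  | nil => rfl
  | cons i l ih =>
    show partialDeriv i (iterPartialDeriv l f) = _
    rw [ih]; rfl

open Pool.Agent.H822N in
theorem noncontinuable {n : ℕ} {v : ℕ → EuclideanSpace ℂ (Fin n)} (hv : ∀ k, ‖v k‖ ≤ 1)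
    (hvd : ∀ ζ : EuclideanSpace ℂ (Fin n), ‖ζ‖ = 1 → ∀ r > 0, ∀ k0 : ℕ, ∃ k, k0 ≤ k ∧ ‖v k - ζ‖ < r)
    (hF : DifferentiableOn ℂ (F v cf (fun k => M k ^ 2)) (ball (0 : EuclideanSpace ℂ (Fin n)) 1)) :
    NonContinuableAlongCurves n (F v cf (fun k => M k ^ 2)) := by
  intro W V Φ h hWo hWc hΦ hh hVW hVo hVne hV
  set f := F v cf (fun k => M k ^ 2) with hf
  -- the set of good points
  let Ω : Set ℂ := {w | ∃ r > 0, ∀ z ∈ ball w r, z ∈ W ∧ Φ z ∈ ball (0 : EuclideanSpace ℂ (Fin n)) 1 ∧ h z = f (Φ z)}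
  have hΩo : IsOpen Ω := by
    rw [Metric.isOpen_iff]
    rintro w ⟨r, hr, hw⟩
    refine ⟨r / 2, by positivity, fun y hy => ⟨r / 2, by positivity, fun z hz => hw z ?_⟩⟩
    rw [mem_ball] at hy hz ⊢
    linarith [dist_triangle z y w]
  have hVΩ : V ⊆ Ω := by
    intro w hw
    obtain ⟨r, hr, hrw⟩ := Metric.isOpen_iff.mp hVo w hw
    exact ⟨r, hr, fun z hz => ⟨hVW (hrw hz), hV z (hrw hz)⟩⟩
  have hcl : closure Ω ∩ W ⊆ Ω := by
    rintro τ ⟨hτc, hτW⟩
    -- a radius
    have hcont : ContinuousAt Φ τ := (hΦ.differentiableAt (hWo.mem_nhds hτW)).continuousAt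
    obtain ⟨r1, hr1, hr1W⟩ := Metric.isOpen_iff.mp hWo τ hτW
    obtain ⟨r2, hr2, hr2Φ⟩ := Metric.continuousAt_iff.mp hcont 1 one_pos
    set R : ℝ := min r1 r2 / 5 with hR
    have hRpos : 0 < R := by rw [hR]; have := lt_min hr1 hr2; positivity
    have hR1 : 5 * R ≤ r1 := by rw [hR]; linarith [min_le_left r1 r2]
    have hR2 : 5 * R ≤ r2 := by rw [hR]; linarith [min_le_right r1 r2]
    obtain ⟨p, hpΩ, hpτ⟩ := Metric.mem_closure_iff.mp hτc R hRpos
    obtain ⟨s, hs, hsp⟩ := hpΩ
    have hpτ' : dist p τ < R := by rwa [dist_comm]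
    have hballW : ball τ (5 * R) ⊆ W := (ball_subset_ball hR1).trans hr1W
    have hsub : closedBall p (3 * R) ⊆ ball τ (5 * R) := by
      intro z hz
      rw [mem_closedBall] at hz
      rw [mem_ball]
      linarith [dist_triangle z p τ]
    have hp1 : ‖Φ p‖ < 1 := by
      have := (hsp p (mem_ball_self hs)).2.1
      rwa [mem_ball_zero_iff] at this
    have hτ2 : ‖Φ τ‖ ≤ 2 := by
      have h1 : dist (Φ p) (Φ τ) < 1 := hr2Φ (by linarith)
      rw [dist_eq_norm] at h1
      have h2 := norm_sub_norm_le (Φ τ) (Φ p)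
      rw [norm_sub_rev] at h2
      linarith
    have hΦ3 : ∀ w ∈ closedBall p (3 * R), ‖Φ w‖ ≤ 3 := by
      intro w hw
      have h0 := hsub hw
      rw [mem_ball] at h0
      have h1 : dist (Φ w) (Φ τ) < 1 := hr2Φ (by linarith)
      rw [dist_eq_norm] at h1
      have h2 := norm_sub_norm_le (Φ w) (Φ τ)
      linarith
    set R₁ : ℝ := min (s / 2) (3 * R) with hR₁
    have hR₁pos : 0 < R₁ := lt_min (by positivity) (by positivity)
    obtain ⟨B, k0, hB⟩ := terms_bounded hv Φ p R R₁ hRpos hR₁pos (min_le_right _ _) W (hsub.trans hballW) hΦ hΦ3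
      h hh (fun w hw => by
        have hw' : w ∈ ball p s := by
          rw [mem_closedBall] at hw
          rw [mem_ball]
          have : R₁ ≤ s / 2 := min_le_left _ _
          linarith
        obtain ⟨-, h2, h3⟩ := hsp w hw'
        rw [mem_ball_zero_iff] at h2
        exact ⟨h2.le, h3⟩)
    have hle : ∀ w ∈ ball τ R, ‖Φ w‖ ≤ 1 := by
      intro w hw
      by_contra hcon
      push Not at hcon
      obtain ⟨k, hk, hkB⟩ := terms_unbounded hvd (Φ w) hcon B k0
      have := hB k hk w (by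
        rw [mem_ball] at hw
        rw [← dist_eq_norm]
        linarith [dist_triangle w τ p])
      linarith
    have hRW : ball τ R ⊆ W := (ball_subset_ball (by linarith)).trans hballW
    have hpB : p ∈ ball τ R := by rwa [mem_ball]
    have hlt : ∀ w ∈ ball τ R, Φ w ∈ ball (0 : EuclideanSpace ℂ (Fin n)) 1 := by
      intro w hw
      rw [mem_ball_zero_iff]
      by_contra hcon
      push Not at hcon
      have hw1 : ‖Φ w‖ = 1 := le_antisymm (hle w hw) hcon
      have := Complex.eqOn_of_isPreconnected_of_isMaxOn_norm (convex_ball τ R).isPreconnected isOpen_ball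
        (hΦ.mono hRW) hw (fun z hz => by
          show ‖Φ z‖ ≤ ‖Φ w‖
          rw [hw1]; exact hle z hz)
      have h2 := this hpB
      simp only [Function.const_apply] at h2
      rw [h2, hw1] at hp1
      exact lt_irrefl _ hp1
    have hEq : EqOn h (fun w => f (Φ w)) (ball τ R) := by
      have ha1 : AnalyticOnNhd ℂ h (ball τ R) := (hh.mono hRW).analyticOnNhd isOpen_ball
      have ha2 : AnalyticOnNhd ℂ (fun w => f (Φ w)) (ball τ R) := by
        apply DifferentiableOn.analyticOnNhd _ isOpen_ball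
        exact hF.comp (hΦ.mono hRW) hlt
      refine ha1.eqOn_of_preconnected_of_eventuallyEq ha2 (convex_ball τ R).isPreconnected hpB ?_
      filter_upwards [isOpen_ball.mem_nhds (mem_ball_self hs)] with z hz using (hsp z hz).2.2
    exact ⟨R, hRpos, fun z hz => ⟨hRW hz, hlt z hz, hEq hz⟩⟩
  have hmain : W ⊆ Ω := by
    apply hWc.subset_of_closure_inter_subset hΩo _ hcl
    obtain ⟨w, hw⟩ := hVne
    exact ⟨w, hVW hw, hVΩ hw⟩
  intro w hw
  obtain ⟨r, hr, hrw⟩ := hmain hw
  exact (hrw w (mem_ball_self hr)).2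

/-- Non-continuability along all curves gives property (NB). -/
theorem propertyNB_of {n : ℕ} {f : EuclideanSpace ℂ (Fin n) → ℂ} (hf : NonContinuableAlongCurves n f) :
    PropertyNB n f := by
  intro a b hb hT τ hτ
  rintro ⟨c, r, h, hτD, hh, he⟩
  have hΦ : Differentiable ℂ (fun w : ℂ => a + w • b) := by fun_prop
  have hle : ∀ w : ℂ, ‖w‖ ≤ 1 → ‖a + w • b‖ ≤ 1 := by
    intro w hw
    refine Complex.norm_le_of_forall_mem_frontier_norm_le (U := ball (0 : ℂ) 1) (f := fun w : ℂ => a + w • b)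
      isBounded_ball hΦ.diffContOnCl (fun z hz => ?_) ?_
    · rw [frontier_ball _ one_ne_zero, mem_sphere_zero_iff_norm] at hz
      exact (hT z hz).le
    · rw [closure_ball _ one_ne_zero, mem_closedBall_zero_iff]
      exact hw
  have hlt : ∀ w : ℂ, ‖w‖ < 1 → ‖a + w • b‖ < 1 := by
    intro w hw
    by_contra hcon
    push Not at hcon
    have hw1 : ‖a + w • b‖ = 1 := le_antisymm (hle w hw.le) hcon
    have hw' : w ∈ ball (0 : ℂ) 1 := by rwa [mem_ball_zero_iff]
    have hm := Complex.eqOn_of_isPreconnected_of_isMaxOn_norm (convex_ball (0 : ℂ) 1).isPreconnected isOpen_ball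
      (f := fun w : ℂ => a + w • b) hΦ.differentiableOn hw' (fun z hz => by
        show ‖a + z • b‖ ≤ ‖a + w • b‖
        rw [hw1]; exact hle z (mem_ball_zero_iff.mp hz).le)
    have h0 := hm (mem_ball_self one_pos : (0 : ℂ) ∈ ball (0 : ℂ) 1)
    have h1 := hm (show (1 / 2 : ℂ) ∈ ball (0 : ℂ) 1 by rw [mem_ball_zero_iff]; norm_num)
    simp only [Function.const_apply] at h0 h1
    rw [← h0] at h1
    have h2 : (1 / 2 : ℂ) • b = 0 := by
      have := add_left_cancel h1
      rw [this, zero_smul]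
    rw [smul_eq_zero] at h2
    rcases h2 with h2 | h2
    · norm_num at h2
    · exact hb h2
  have hVne : (ball c r ∩ ball (0 : ℂ) 1).Nonempty := by
    have hτcl : τ ∈ closure (ball (0 : ℂ) 1) := by
      rw [closure_ball _ one_ne_zero, mem_closedBall_zero_iff]
      exact hτ.le
    exact mem_closure_iff.mp hτcl (ball c r) isOpen_ball hτD
  have key := hf (ball c r) (ball c r ∩ ball (0 : ℂ) 1) (fun w => a + w • b) h isOpen_ball
    (convex_ball c r).isPreconnected hΦ.differentiableOn hh inter_subset_left (isOpen_ball.inter isOpen_ball) hVne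
    (fun w hw => ⟨by
      rw [mem_ball_zero_iff]
      exact hlt w (mem_ball_zero_iff.mp hw.2), he w hw⟩) τ hτD
  have := key.1
  rw [mem_ball_zero_iff, hT τ hτ] at this
  exact lt_irrefl _ this

/-- **Natural boundaries on all affine discs.** For every `n ≥ 1` there is a function in `A^∞(B)` (and in `A(B)`)
with property (NB); the same function cannot be continued out of the ball along any holomorphic curve. -/
theorem result (n : ℕ) (hn : 1 ≤ n) : ∃ f : EuclideanSpace ℂ (Fin n) → ℂ,
    InAInfty n f ∧ InBallAlgebra n f ∧ PropertyNB n f ∧ NonContinuableAlongCurves n f := by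
  obtain ⟨v, hv1, hvd⟩ := Pool.Agent.H822N.exists_dirs hn
  have hv : ∀ k, ‖v k‖ ≤ 1 := fun k => (hv1 k).le
  have hdiff : DifferentiableOn ℂ (Pool.Agent.H822N.F v Pool.Agent.H822N.cf (fun k => Pool.Agent.H822N.M k ^ 2))
      (ball (0 : EuclideanSpace ℂ (Fin n)) 1) := by
    intro z hz
    have := (Pool.Agent.H822N.F_hasFDerivAt (v := v) hv (d := Pool.Agent.H822N.cf)
      (P := fun k => Pool.Agent.H822N.M k ^ 2) Pool.Agent.H822N.summable_cf0 (by
        simpa using Pool.Agent.H822N.summable_cf 2) hz).1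
    exact this.differentiableAt.differentiableWithinAt
  have hcont : ContinuousOn (Pool.Agent.H822N.F v Pool.Agent.H822N.cf (fun k => Pool.Agent.H822N.M k ^ 2))
      (closedBall (0 : EuclideanSpace ℂ (Fin n)) 1) :=
    Pool.Agent.H822N.F_continuousOn hv Pool.Agent.H822N.summable_cf0
  have hNC := noncontinuable hv hvd hdiff
  refine ⟨_, ⟨hdiff, fun l => ?_⟩, ⟨hcont, hdiff⟩, propertyNB_of hNC, hNC⟩
  obtain ⟨d', P', -, hd', he⟩ := Pool.Agent.H822N.iterPartialDeriv_F hv Pool.Agent.H822N.cf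
    (fun k => Pool.Agent.H822N.M k ^ 2) (fun k => le_rfl) Pool.Agent.H822N.summable_cf l
  refine ⟨Pool.Agent.H822N.F v d' P', Pool.Agent.H822N.F_continuousOn hv (by simpa using hd' 0), fun z hz => ?_⟩
  rw [iterPartialDeriv_eq]
  exact (he z hz).symm

end Pool.Agent.Results.MP_ca9574_an.NaturalBoundaryOnAllDiscs
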